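import Pool.Agent.Helper60.SB.Defs5

/-!
Module P8: summation over the outer levels (problem MP_7fc85e_an, stage 3B).
-/

open Finset MeasureTheory
open scoped ENNReal Real

namespace Pool.Agent.Helper52.SB

open Pool.Agent.Helper60.SB

/-- powers are dominated by exponentials -/
private theorem poly_exp (p η : ℝ) (hp : 0 ≤ p) (hη : 0 < η) :
    ∃ M : ℝ, 0 < M ∧ ∀ i : ℕ, ((i : ℝ) + 1) ^ p ≤ M * (2 : ℝ) ^ (η * i) := by
  set s : ℝ := η * Real.log 2 / (p + 1) with hs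
  have hl : 0 < Real.log 2 := Real.log_pos (by norm_num)
  have hs0 : 0 < s := by positivity
  refine ⟨s⁻¹ ^ p * (2 : ℝ) ^ η, by positivity, fun i => ?_⟩
  have h1 : (i : ℝ) + 1 ≤ s⁻¹ * Real.exp (s * (i + 1)) := by
    rw [← div_eq_inv_mul, le_div_iff₀ hs0]
    have := Real.add_one_le_exp (s * ((i : ℝ) + 1))
    linarith
  have h2 : ((i : ℝ) + 1) ^ p ≤ (s⁻¹ * Real.exp (s * (i + 1))) ^ p :=
    Real.rpow_le_rpow (by positivity) h1 hp
  have h3 : (s⁻¹ * Real.exp (s * ((i : ℝ) + 1))) ^ p = s⁻¹ ^ p * Real.exp (s * p * (i + 1)) := by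
    rw [Real.mul_rpow (by positivity) (by positivity), ← Real.exp_mul]
    congr 2
    ring
  have h4 : Real.exp (s * p * ((i : ℝ) + 1)) ≤ (2 : ℝ) ^ η * (2 : ℝ) ^ (η * i) := by
    rw [← Real.rpow_add (by norm_num), Real.rpow_def_of_pos (by norm_num)]
    refine Real.exp_le_exp.mpr ?_
    have h5 : s * p ≤ η * Real.log 2 := by
      rw [hs, div_mul_eq_mul_div, div_le_iff₀ (by positivity)]
      have : 0 ≤ η * Real.log 2 := by positivity
      nlinarith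
    have h6 : (0 : ℝ) ≤ (i : ℝ) + 1 := by positivity
    have := mul_le_mul_of_nonneg_right h5 h6
    linarith
  calc ((i : ℝ) + 1) ^ p ≤ s⁻¹ ^ p * Real.exp (s * p * (i + 1)) := h2.trans_eq h3
    _ ≤ s⁻¹ ^ p * ((2 : ℝ) ^ η * (2 : ℝ) ^ (η * i)) :=
        mul_le_mul_of_nonneg_left h4 (by positivity)
    _ = _ := by ring

private theorem sum_bound (p η : ℝ) (hp : 0 ≤ p) (hη : 0 < η) :
    ∃ M : ℝ, 0 < M ∧ ∀ N : ℕ, ∑ i ∈ range N, ((i : ℝ) + 1) ^ p * (2 : ℝ) ^ (-(η * i)) ≤ M := by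
  obtain ⟨M, hM, h⟩ := poly_exp p (η / 2) hp (by positivity)
  set x : ℝ := (2 : ℝ) ^ (-(η / 2)) with hx
  have hx0 : 0 < x := by positivity
  have hx1 : x < 1 := Real.rpow_lt_one_of_one_lt_of_neg (by norm_num) (by linarith)
  refine ⟨M * (1 - x)⁻¹, by have : 0 < 1 - x := by linarith
                            positivity, fun N => ?_⟩
  have h1 : ∀ i : ℕ, ((i : ℝ) + 1) ^ p * (2 : ℝ) ^ (-(η * i)) ≤ M * x ^ i := by
    intro i
    have h2 : x ^ i = (2 : ℝ) ^ (η / 2 * i) * (2 : ℝ) ^ (-(η * i)) := by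
      rw [hx, ← Real.rpow_natCast, ← Real.rpow_mul (by norm_num), ← Real.rpow_add (by norm_num)]
      congr 1
      ring
    rw [h2, ← mul_assoc]
    exact mul_le_mul_of_nonneg_right (h i) (by positivity)
  calc ∑ i ∈ range N, ((i : ℝ) + 1) ^ p * (2 : ℝ) ^ (-(η * i))
      ≤ ∑ i ∈ range N, M * x ^ i := Finset.sum_le_sum fun i _ => h1 i
    _ = M * ∑ i ∈ range N, x ^ i := by rw [Finset.mul_sum]
    _ ≤ M * (1 - x)⁻¹ := by
        refine mul_le_mul_of_nonneg_left ?_ hM.le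
        rw [← tsum_geometric_of_lt_one hx0.le hx1]
        exact (summable_geometric_of_lt_one hx0.le hx1).sum_le_tsum _
          (fun i _ => by positivity)


private theorem tail_bound (p η : ℝ) (hp : 0 ≤ p) (hη : 0 < η) :
    ∃ M : ℝ, 0 < M ∧ ∀ (J : ℕ) (F : Finset ℕ), (∀ i ∈ F, J ≤ i) →
      ∑ i ∈ F, ((i : ℝ) + 1) ^ p * (2 : ℝ) ^ (-(η * i)) ≤ M * (2 : ℝ) ^ (-(η / 2 * J)) := by
  obtain ⟨M, hM, h⟩ := sum_bound p (η / 2) hp (by positivity)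
  refine ⟨M, hM, fun J F hF => ?_⟩
  have h1 : ∀ i ∈ F, ((i : ℝ) + 1) ^ p * (2 : ℝ) ^ (-(η * i)) ≤
      ((i : ℝ) + 1) ^ p * (2 : ℝ) ^ (-(η / 2 * i)) * (2 : ℝ) ^ (-(η / 2 * J)) := by
    intro i hi
    rw [mul_assoc]
    refine mul_le_mul_of_nonneg_left ?_ (by positivity)
    rw [← Real.rpow_add (by norm_num)]
    refine Real.rpow_le_rpow_of_exponent_le (by norm_num) ?_
    have h2 : (J : ℝ) ≤ i := by exact_mod_cast hF i hi
    nlinarith
  have h3 : F ⊆ range (F.sup id + 1) := by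
    intro i hi
    rw [mem_range]
    have : i ≤ F.sup id := Finset.le_sup (f := id) hi
    omega
  calc ∑ i ∈ F, ((i : ℝ) + 1) ^ p * (2 : ℝ) ^ (-(η * i))
      ≤ ∑ i ∈ F, ((i : ℝ) + 1) ^ p * (2 : ℝ) ^ (-(η / 2 * i)) * (2 : ℝ) ^ (-(η / 2 * J)) :=
        Finset.sum_le_sum h1
    _ = (∑ i ∈ F, ((i : ℝ) + 1) ^ p * (2 : ℝ) ^ (-(η / 2 * i))) * (2 : ℝ) ^ (-(η / 2 * J)) := by
        rw [Finset.sum_mul]
    _ ≤ (∑ i ∈ range (F.sup id + 1), ((i : ℝ) + 1) ^ p * (2 : ℝ) ^ (-(η / 2 * i))) *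
          (2 : ℝ) ^ (-(η / 2 * J)) := by
        refine mul_le_mul_of_nonneg_right ?_ (by positivity)
        exact Finset.sum_le_sum_of_subset_of_nonneg h3 (fun i _ _ => by positivity)
    _ ≤ _ := mul_le_mul_of_nonneg_right (h _) (by positivity)

private theorem tail_low (p η : ℝ) (hp : 0 ≤ p) (hη : 0 < η) :
    ∃ M : ℝ, 0 < M ∧ ∀ (N J : ℕ) (T : Finset ℕ), (∀ m ∈ T, m + J ≤ N) →
      ∑ m ∈ T, (((N - m : ℕ) : ℝ) + 1) ^ p * (2 : ℝ) ^ (-(η * ((N - m : ℕ) : ℝ))) ≤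
        M * (2 : ℝ) ^ (-(η / 2 * J)) := by
  classical
  obtain ⟨M, hM, h⟩ := tail_bound p η hp hη
  refine ⟨M, hM, fun N J T hT => ?_⟩
  have hinj : Set.InjOn (fun m => N - m) (T : Set ℕ) := by
    intro x hx y hy hxy
    have h1 := hT x hx
    have h2 := hT y hy
    simp only at hxy
    omega
  have h1 := h J (T.image (fun m => N - m)) (by
    intro i hi
    obtain ⟨m, hm, rfl⟩ := Finset.mem_image.1 hi
    have := hT m hm
    omega)
  rwa [Finset.sum_image hinj] at h1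

private theorem tail_high (p η : ℝ) (hp : 0 ≤ p) (hη : 0 < η) :
    ∃ M : ℝ, 0 < M ∧ ∀ (N J : ℕ) (T : Finset ℕ), (∀ m ∈ T, N + J ≤ m) →
      ∑ m ∈ T, (((m - N : ℕ) : ℝ) + 1) ^ p * (2 : ℝ) ^ (-(η * ((m - N : ℕ) : ℝ))) ≤
        M * (2 : ℝ) ^ (-(η / 2 * J)) := by
  classical
  obtain ⟨M, hM, h⟩ := tail_bound p η hp hη
  refine ⟨M, hM, fun N J T hT => ?_⟩
  have hinj : Set.InjOn (fun m => m - N) (T : Set ℕ) := by
    intro x hx y hy hxy
    have h1 := hT x hx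
    have h2 := hT y hy
    simp only at hxy
    omega
  have h1 := h J (T.image (fun m => m - N)) (by
    intro i hi
    obtain ⟨m, hm, rfl⟩ := Finset.mem_image.1 hi
    have := hT m hm
    omega)
  rwa [Finset.sum_image hinj] at h1

/-- coverings of sums -/
private theorem cov_sum {d : ℕ} (S : ℕ → Set ((Fin d → ℝ) → ℂ)) (ε K c : ℕ → ℝ)
    (hc : ∀ m, 0 ≤ c m) (h : ∀ m, CovF (S m) (ε m) (K m)) (T : Finset ℕ) :
    ∃ t : Finset ((Fin d → ℝ) → ℂ), (t.card : ℝ) ≤ Real.exp (∑ m ∈ T, K m) ∧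
      (∀ y ∈ t, MemLp y ⊤ (tor d)) ∧ ∀ g : ℕ → (Fin d → ℝ) → ℂ, (∀ m, g m ∈ S m) →
        ∃ y ∈ t, ∀ x, ‖∑ m ∈ T, (c m : ℂ) * g m x - y x‖ ≤ ∑ m ∈ T, c m * ε m := by
  classical
  induction T using Finset.induction_on with
  | empty =>
    refine ⟨{0}, by simp, ?_, fun g _ => ⟨0, by simp, fun x => by simp⟩⟩
    intro y hy
    rw [Finset.mem_singleton.mp hy]
    exact MemLp.zero
  | insert J T hJ ih =>
    obtain ⟨t, h1, h2, h3⟩ := ih
    obtain ⟨t', h1', h2', h3'⟩ := h J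
    refine ⟨Finset.image₂ (fun y z => y + (c J : ℂ) • z) t t', ?_, ?_, ?_⟩
    · rw [Finset.sum_insert hJ, add_comm, Real.exp_add]
      have := Finset.card_image₂_le (fun y z : (Fin d → ℝ) → ℂ => y + (c J : ℂ) • z) t t'
      calc ((Finset.image₂ (fun y z => y + (c J : ℂ) • z) t t').card : ℝ)
          ≤ ((t.card * t'.card : ℕ) : ℝ) := by exact_mod_cast this
        _ = t.card * t'.card := by push_cast; ring
        _ ≤ _ := mul_le_mul h1 h1' (by positivity) (by positivity)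
    · intro w hw
      obtain ⟨y, hy, z, hz, rfl⟩ := Finset.mem_image₂.mp hw
      exact (h2 y hy).add ((h2' z hz).const_smul _)
    · intro g hg
      obtain ⟨y, hy, hy'⟩ := h3 g hg
      obtain ⟨z, hz, hz'⟩ := h3' (g J) (hg J)
      refine ⟨y + (c J : ℂ) • z, Finset.mem_image₂_of_mem hy hz, fun x => ?_⟩
      rw [Finset.sum_insert hJ, Finset.sum_insert hJ]
      have h4 : (c J : ℂ) * g J x + ∑ m ∈ T, (c m : ℂ) * g m x -
          (y + (c J : ℂ) • z) x = (c J : ℂ) * (g J x - z x) +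
            (∑ m ∈ T, (c m : ℂ) * g m x - y x) := by
        simp only [Pi.add_apply, Pi.smul_apply, smul_eq_mul]
        ring
      rw [h4]
      refine (norm_add_le _ _).trans (add_le_add ?_ (hy' x))
      rw [norm_mul, Complex.norm_real, Real.norm_of_nonneg (hc J)]
      exact mul_le_mul_of_nonneg_left (hz' x) (hc J)

/-- the choice of the accuracies -/
private noncomputable def jj (η : ℝ) (β N m : ℕ) : ℕ :=
  if m ≤ N then β * (N - m) else ⌈(1 + η) * ((m : ℝ) - N)⌉₊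

/-- the number of bits -/
private noncomputable def kf (e : ℕ) (C η : ℝ) (β N m : ℕ) : ℝ :=
  if m ≤ N then C * (1 + jj η β N m) * ((m : ℝ) + 1) ^ e * 2 ^ m + 1
  else C * (1 + jj η β N m) * ((m : ℝ) + 1) ^ e * (2 : ℝ) ^ ((m : ℝ) - jj η β N m) + 1

/-- the accuracy -/
private noncomputable def ef (a κ C η : ℝ) (β N m : ℕ) : ℝ :=
  if m ≤ N then C * ((m : ℝ) + 1) ^ a * (2 : ℝ) ^ (-(jj η β N m : ℝ))
  else C * ((m : ℝ) + 1) ^ a * (2 : ℝ) ^ (κ * jj η β N m)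

private theorem jj_high (η : ℝ) (hη : 0 < η) (β N m : ℕ) (hm : ¬ m ≤ N) :
    (1 + η) * ((m - N : ℕ) : ℝ) ≤ jj η β N m ∧
      (jj η β N m : ℝ) ≤ (1 + η) * ((m - N : ℕ) : ℝ) + 1 := by
  unfold jj
  rw [if_neg hm]
  have h3 : (m : ℝ) - N = ((m - N : ℕ) : ℝ) := by
    rw [Nat.cast_sub (by omega)]
  rw [h3]
  exact ⟨Nat.le_ceil _, (Nat.ceil_lt_add_one (by positivity)).le⟩

private theorem kf_low (e : ℕ) (C η : ℝ) (β N m : ℕ) (hC : 1 ≤ C) (hm : m ≤ N) :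
    kf e C η β N m ≤ C * (1 + β) * (((N : ℝ) + 1) ^ e * 2 ^ N) *
      ((((N - m : ℕ) : ℝ) + 1) ^ (1 : ℝ) * (2 : ℝ) ^ (-(1 * ((N - m : ℕ) : ℝ)))) + 1 := by
  unfold kf jj
  rw [if_pos hm, if_pos hm]
  obtain ⟨i, hi⟩ : ∃ i, N = m + i := ⟨N - m, by omega⟩
  subst hi
  have h0 : m + i - m = i := by omega
  rw [h0]
  have h4 : (2 : ℝ) ^ m = 2 ^ (m + i) * (2 : ℝ) ^ (-(1 * (i : ℝ))) := by
    rw [one_mul, Real.rpow_neg (by norm_num), Real.rpow_natCast, pow_add]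
    field_simp
  rw [h4, Real.rpow_one]
  have h5 : ((m : ℝ) + 1) ^ e ≤ (((m + i : ℕ) : ℝ) + 1) ^ e := by
    refine pow_le_pow_left₀ (by positivity) ?_ _
    push_cast
    have : (0 : ℝ) ≤ i := by positivity
    linarith
  have h6 : 1 + ((β * i : ℕ) : ℝ) ≤ (1 + β) * (i + 1) := by
    push_cast
    have h0 : (0 : ℝ) ≤ β := by positivity
    have h1 : (0 : ℝ) ≤ i := by positivity
    nlinarith
  have h7 : C * (1 + ((β * i : ℕ) : ℝ)) * ((m : ℝ) + 1) ^ e ≤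
      C * ((1 + β) * (i + 1)) * (((m + i : ℕ) : ℝ) + 1) ^ e := by
    gcongr
  have h8 : (0 : ℝ) ≤ 2 ^ (m + i) * (2 : ℝ) ^ (-(1 * (i : ℝ))) := by positivity
  have h9 := mul_le_mul_of_nonneg_right h7 h8
  refine add_le_add (h9.trans (le_of_eq ?_)) le_rfl
  ring

private theorem kf_high (e : ℕ) (C η : ℝ) (β N m : ℕ) (hC : 1 ≤ C) (hη : 0 < η) (hm : ¬ m ≤ N) :
    kf e C η β N m ≤ C * (2 + η) * (((N : ℝ) + 1) ^ e * 2 ^ N) *
      ((((m - N : ℕ) : ℝ) + 1) ^ ((e : ℝ) + 1) * (2 : ℝ) ^ (-(η * ((m - N : ℕ) : ℝ)))) + 1 := by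
  obtain ⟨h4, h5⟩ := jj_high η hη β N m hm
  unfold kf
  rw [if_neg hm]
  set x : ℝ := ((m - N : ℕ) : ℝ) with hx
  have hx0 : 0 ≤ x := by positivity
  set J : ℝ := (jj η β N m : ℝ) with hJ
  have h6 : (m : ℝ) = N + x := by rw [hx, Nat.cast_sub (by omega)]; ring
  rw [h6]
  have hm0 : (0 : ℝ) ≤ N := by positivity
  have h7 : (N : ℝ) + x + 1 ≤ (N + 1) * (x + 1) := by nlinarith
  have h8 : ((N : ℝ) + x + 1) ^ e ≤ ((N : ℝ) + 1) ^ e * (x + 1) ^ e := by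
    rw [← mul_pow]
    exact pow_le_pow_left₀ (by positivity) h7 _
  have h9 : (2 : ℝ) ^ ((N : ℝ) + x - J) ≤ 2 ^ N * (2 : ℝ) ^ (-(η * x)) := by
    rw [← Real.rpow_natCast 2 N, ← Real.rpow_add (by norm_num)]
    exact Real.rpow_le_rpow_of_exponent_le (by norm_num) (by linarith)
  have h10 : 1 + J ≤ (2 + η) * (x + 1) := by nlinarith
  have h11 : (x + 1) ^ ((e : ℝ) + 1) = (x + 1) ^ e * (x + 1) := by
    rw [Real.rpow_add_one (by positivity), Real.rpow_natCast]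
  rw [h11]
  have hJ0 : 0 ≤ J := by positivity
  have h12 : C * (1 + J) * ((N : ℝ) + x + 1) ^ e * (2 : ℝ) ^ ((N : ℝ) + x - J) ≤
      C * ((2 + η) * (x + 1)) * (((N : ℝ) + 1) ^ e * (x + 1) ^ e) *
        (2 ^ N * (2 : ℝ) ^ (-(η * x))) := by
    gcongr
  refine add_le_add (h12.trans (le_of_eq ?_)) le_rfl
  ring

private theorem ef_low (r a κ C η : ℝ) (β N m : ℕ) (hC : 1 ≤ C) (ha : 0 ≤ a) (hm : m ≤ N) :
    (2 : ℝ) ^ (-(r * m)) * ef a κ C η β N m ≤ C * (((N : ℝ) + 1) ^ a * (2 : ℝ) ^ (-(r * N))) *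
      ((((N - m : ℕ) : ℝ) + 1) ^ (0 : ℝ) * (2 : ℝ) ^ (-((β - r) * ((N - m : ℕ) : ℝ)))) := by
  unfold ef jj
  rw [if_pos hm, if_pos hm, Real.rpow_zero, one_mul]
  obtain ⟨i, hi⟩ : ∃ i, N = m + i := ⟨N - m, by omega⟩
  subst hi
  have h0 : m + i - m = i := by omega
  rw [h0]
  have h4 : ((m : ℝ) + 1) ^ a ≤ (((m + i : ℕ) : ℝ) + 1) ^ a := by
    refine Real.rpow_le_rpow (by positivity) ?_ ha
    push_cast
    have : (0 : ℝ) ≤ i := by positivity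
    linarith
  have h5 : (2 : ℝ) ^ (-(r * (m : ℝ))) * (2 : ℝ) ^ (-((β * i : ℕ) : ℝ)) =
      (2 : ℝ) ^ (-(r * ((m + i : ℕ) : ℝ))) * (2 : ℝ) ^ (-((β - r) * (i : ℝ))) := by
    rw [← Real.rpow_add (by norm_num), ← Real.rpow_add (by norm_num)]
    congr 1
    push_cast
    ring
  calc (2 : ℝ) ^ (-(r * (m : ℝ))) * (C * ((m : ℝ) + 1) ^ a * (2 : ℝ) ^ (-((β * i : ℕ) : ℝ)))
      = C * ((m : ℝ) + 1) ^ a * ((2 : ℝ) ^ (-(r * (m : ℝ))) *
        (2 : ℝ) ^ (-((β * i : ℕ) : ℝ))) := by ring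
    _ ≤ C * (((m + i : ℕ) : ℝ) + 1) ^ a * ((2 : ℝ) ^ (-(r * (m : ℝ))) *
        (2 : ℝ) ^ (-((β * i : ℕ) : ℝ))) := by gcongr
    _ = _ := by rw [h5]; ring

private theorem ef_high (r a κ C η : ℝ) (β N m : ℕ) (hC : 1 ≤ C) (ha : 0 ≤ a) (hκ : 0 < κ)
    (hη : 0 < η) (hm : ¬ m ≤ N) :
    (2 : ℝ) ^ (-(r * m)) * ef a κ C η β N m ≤
      C * (2 : ℝ) ^ κ * (((N : ℝ) + 1) ^ a * (2 : ℝ) ^ (-(r * N))) *
      ((((m - N : ℕ) : ℝ) + 1) ^ a *
        (2 : ℝ) ^ (-((r - κ * (1 + η)) * ((m - N : ℕ) : ℝ)))) := by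
  obtain ⟨h4, h5⟩ := jj_high η hη β N m hm
  unfold ef
  rw [if_neg hm]
  set x : ℝ := ((m - N : ℕ) : ℝ) with hx
  have hx0 : 0 ≤ x := by positivity
  set J : ℝ := (jj η β N m : ℝ) with hJ
  have h6 : (m : ℝ) = N + x := by rw [hx, Nat.cast_sub (by omega)]; ring
  rw [h6]
  have hm0 : (0 : ℝ) ≤ N := by positivity
  have h7 : (N : ℝ) + x + 1 ≤ (N + 1) * (x + 1) := by nlinarith
  have h8 : ((N : ℝ) + x + 1) ^ a ≤ ((N : ℝ) + 1) ^ a * (x + 1) ^ a := by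
    rw [← Real.mul_rpow (by positivity) (by positivity)]
    exact Real.rpow_le_rpow (by positivity) h7 ha
  have h9 : (2 : ℝ) ^ (κ * J) ≤ (2 : ℝ) ^ κ * (2 : ℝ) ^ (κ * (1 + η) * x) := by
    rw [← Real.rpow_add (by norm_num)]
    refine Real.rpow_le_rpow_of_exponent_le (by norm_num) ?_
    have := mul_le_mul_of_nonneg_left h5 hκ.le
    linarith
  have h10 : (2 : ℝ) ^ (-(r * (N + x))) * (2 : ℝ) ^ (κ * (1 + η) * x) =
      (2 : ℝ) ^ (-(r * N)) * (2 : ℝ) ^ (-((r - κ * (1 + η)) * x)) := by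
    rw [← Real.rpow_add (by norm_num), ← Real.rpow_add (by norm_num)]
    congr 1
    ring
  calc (2 : ℝ) ^ (-(r * (N + x))) * (C * ((N : ℝ) + x + 1) ^ a * (2 : ℝ) ^ (κ * J))
      ≤ (2 : ℝ) ^ (-(r * (N + x))) * (C * (((N : ℝ) + 1) ^ a * (x + 1) ^ a) *
        ((2 : ℝ) ^ κ * (2 : ℝ) ^ (κ * (1 + η) * x))) := by gcongr
    _ = C * (2 : ℝ) ^ κ * ((N : ℝ) + 1) ^ a * (x + 1) ^ a *
        ((2 : ℝ) ^ (-(r * (N + x))) * (2 : ℝ) ^ (κ * (1 + η) * x)) := by ring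
    _ = _ := by rw [h10]; ring

/-- small powers of two -/
private theorem small_pow (η ε : ℝ) (hη : 0 < η) (hε : 0 < ε) :
    ∃ J₀ : ℕ, ∀ J ≥ J₀, (2 : ℝ) ^ (-(η * (J : ℝ))) ≤ ε := by
  have h1 : Filter.Tendsto (fun J : ℕ => ((2 : ℝ) ^ (-η)) ^ J) Filter.atTop (nhds 0) := by
    refine tendsto_pow_atTop_nhds_zero_of_lt_one (by positivity) ?_
    exact Real.rpow_lt_one_of_one_lt_of_neg (by norm_num) (by linarith)
  obtain ⟨J₀, hJ₀⟩ := Filter.eventually_atTop.1 (h1.eventually (eventually_le_nhds hε))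
  refine ⟨J₀, fun J hJ => ?_⟩
  have h2 := hJ₀ J hJ
  rwa [← Real.rpow_natCast, ← Real.rpow_mul (by norm_num), neg_mul] at h2

/-- the number of levels is negligible -/
private theorem small_lin (lam : ℕ) (ε : ℝ) (hε : 0 < ε) :
    ∃ N₀ : ℕ, ∀ N ≥ N₀, ((lam * N : ℕ) : ℝ) ≤ ε * 2 ^ N := by
  have h1 : Filter.Tendsto (fun N : ℕ => (N : ℝ) ^ 1 / 2 ^ N) Filter.atTop (nhds 0) :=
    tendsto_pow_const_div_const_pow_of_one_lt 1 (by norm_num)
  have h3 : 0 < ε / (lam + 1) := by positivity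
  obtain ⟨N₀, hN₀⟩ := Filter.eventually_atTop.1 (h1.eventually (eventually_le_nhds h3))
  refine ⟨N₀, fun N hN => ?_⟩
  have h2 := hN₀ N hN
  rw [pow_one, div_le_iff₀ (by positivity)] at h2
  push_cast
  have h4 : (lam : ℝ) * N ≤ (lam + 1) * N := by
    have : (0 : ℝ) ≤ N := by positivity
    nlinarith
  have h5 : ((lam : ℝ) + 1) * N ≤ (lam + 1) * (ε / (lam + 1) * 2 ^ N) :=
    mul_le_mul_of_nonneg_left h2 (by positivity)
  have h6 : ((lam : ℝ) + 1) * (ε / (lam + 1) * 2 ^ N) = ε * 2 ^ N := by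
    field_simp
  linarith

theorem sum_outer (e : ℕ) (r κ a b C : ℝ) (hκ : 0 < κ) (hκr : κ < r) (ha : 0 ≤ a) (hb : 0 ≤ b)
    (hC : 1 ≤ C) (S : ℕ → Set ((Fin (e + 1) → ℝ) → ℂ))
    (low : ∀ m j : ℕ, CovF (S m) (C * ((m : ℝ) + 1) ^ a * (2 : ℝ) ^ (-(j : ℝ)))
      (C * (1 + j) * ((m : ℝ) + 1) ^ e * 2 ^ m + 1))
    (high : ∀ m j : ℕ, CovF (S m) (C * ((m : ℝ) + 1) ^ a * (2 : ℝ) ^ (κ * j))
      (C * (1 + j) * ((m : ℝ) + 1) ^ e * (2 : ℝ) ^ ((m : ℝ) - j) + 1)) :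
    ∀ δ > 0, ∃ J₀ : ℕ, ∀ J ≥ J₀, ∃ N₀ : ℕ, ∀ N ≥ N₀,
      CovA {h | ∃ g : ℕ → (Fin (e + 1) → ℝ) → ℂ, (∀ m, g m ∈ S m) ∧ ∀ L : ℕ, N + J < L →
        ∀ᵐ x ∂(tor (e + 1)),
          ‖h x - ∑ m ∈ (range L).filter (fun m => m ∉ Finset.Icc (N - J) (N + J)),
            (((2 : ℝ) ^ (-(r * m)) : ℝ) : ℂ) * g m x‖ ≤
          C * ((L : ℝ) + 1) ^ b * (2 : ℝ) ^ (-((r - κ) * L))}
        (δ * ((N : ℝ) + 1) ^ a * (2 : ℝ) ^ (-(r * N))) (δ * ((N : ℝ) + 1) ^ e * 2 ^ N) := by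
  intro δ hδ
  have hr : 0 < r := hκ.trans hκr
  have hrκ : 0 < r - κ := by linarith
  set η : ℝ := (r - κ) / (2 * κ) with hη
  have hη0 : 0 < η := by positivity
  have hκη : κ * (1 + η) = (r + κ) / 2 := by
    rw [hη]
    field_simp
    ring
  have hη2 : 0 < r - κ * (1 + η) := by rw [hκη]; linarith
  set β : ℕ := ⌈r⌉₊ + 1 with hβ
  have hβr : 0 < (β : ℝ) - r := by
    rw [hβ]
    push_cast
    linarith [Nat.le_ceil r]
  set lam : ℕ := ⌈2 * (r + 1) / (r - κ)⌉₊ + 3 with hlam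
  have hlam' : 2 * (r + 1) / (r - κ) ≤ lam := by
    rw [hlam]
    push_cast
    linarith [Nat.le_ceil (2 * (r + 1) / (r - κ))]
  obtain ⟨M₁, hM₁, t₁⟩ := tail_low 0 (β - r) le_rfl hβr
  obtain ⟨M₂, hM₂, t₂⟩ := tail_high a (r - κ * (1 + η)) ha hη2
  obtain ⟨M₃, hM₃, t₃⟩ := tail_low 1 1 (by norm_num) (by norm_num)
  obtain ⟨M₄, hM₄, t₄⟩ := tail_high (e + 1) η (by positivity) hη0
  obtain ⟨M₅, hM₅, s₅⟩ := poly_exp b ((r - κ) / 2) hb (by positivity)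
  have hC0 : 0 < C := by linarith
  obtain ⟨J₁, hJ₁⟩ := small_pow ((β - r) / 2) (δ / (4 * (C * M₁))) (by positivity) (by positivity)
  obtain ⟨J₂, hJ₂⟩ := small_pow ((r - κ * (1 + η)) / 2) (δ / (4 * (C * (2 : ℝ) ^ κ * M₂)))
    (by positivity) (by positivity)
  obtain ⟨J₃, hJ₃⟩ := small_pow (1 / 2) (δ / (4 * (C * (1 + β) * M₃))) (by positivity)
    (by positivity)
  obtain ⟨J₄, hJ₄⟩ := small_pow (η / 2) (δ / (4 * (C * (2 + η) * M₄))) (by positivity)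
    (by positivity)
  refine ⟨max (max J₁ J₂) (max J₃ J₄), fun J hJ => ?_⟩
  have g₁ := hJ₁ J (by omega)
  have g₂ := hJ₂ J (by omega)
  have g₃ := hJ₃ J (by omega)
  have g₄ := hJ₄ J (by omega)
  obtain ⟨N₁, hN₁⟩ := small_lin lam (δ / 4) (by positivity)
  obtain ⟨N₂, hN₂⟩ := small_pow 1 (δ / (4 * (C * M₅))) (by norm_num) (by positivity)
  refine ⟨max (J + 1) (max N₁ N₂), fun N hN => ?_⟩
  have hNJ : J < N := by omega
  have k₁ := hN₁ N (by omega)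
  have k₂ := hN₂ N (by omega)
  set L : ℕ := lam * N with hL
  have hLN : N + J < L := by
    have h1 : 3 * N ≤ lam * N := Nat.mul_le_mul_right _ (by omega)
    omega
  set T : Finset ℕ := (range L).filter (fun m => m ∉ Finset.Icc (N - J) (N + J)) with hT
  have hTm : ∀ m ∈ T, m < L ∧ (m + J ≤ N ∨ N + J ≤ m) ∧ (m ≤ N → m + J ≤ N) ∧
      (¬ m ≤ N → N + J ≤ m) := by
    intro m hm
    rw [hT, Finset.mem_filter, mem_range, Finset.mem_Icc] at hm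
    obtain ⟨h1, h2⟩ := hm
    refine ⟨h1, ?_, ?_, ?_⟩
    · by_contra hh
      push Not at hh
      exact h2 ⟨by omega, by omega⟩
    · intro h3
      by_contra hh
      exact h2 ⟨by omega, by omega⟩
    · intro h3
      by_contra hh
      exact h2 ⟨by omega, by omega⟩
  have hTc : (T.card : ℝ) ≤ (L : ℝ) := by
    have h1 : T.card ≤ (range L).card := Finset.card_le_card (Finset.filter_subset _ _)
    rw [card_range] at h1
    exact_mod_cast h1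
  have hcov : ∀ m, CovF (S m) (ef a κ C η β N m) (kf e C η β N m) := by
    intro m
    unfold ef kf
    split_ifs
    · exact low m _
    · exact high m _
  obtain ⟨t, ht1, ht2, ht3⟩ := cov_sum S _ _ (fun m : ℕ => (2 : ℝ) ^ (-(r * m)))
    (fun m => by positivity) hcov T
  set A : ℝ := ((N : ℝ) + 1) ^ a * (2 : ℝ) ^ (-(r * N)) with hA
  set B : ℝ := ((N : ℝ) + 1) ^ e * 2 ^ N with hB
  have hA0 : 0 < A := by positivity
  have hB0 : 0 < B := by positivity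
  have hN0 : (0 : ℝ) ≤ N := by positivity
  have cancel : ∀ x y : ℝ, 0 < x → y ≤ δ / (4 * x) → x * y ≤ δ / 4 := by
    intro x y hx hy
    have h1 := mul_le_mul_of_nonneg_left hy hx.le
    have h2 : x * (δ / (4 * x)) = δ / 4 := by field_simp
    linarith
  -- the radius
  have hrad : ∑ m ∈ T, (2 : ℝ) ^ (-(r * m)) * ef a κ C η β N m ≤ δ / 4 * A + δ / 4 * A := by
    rw [← Finset.sum_filter_add_sum_filter_not T (fun m => m ≤ N)]
    refine add_le_add ?_ ?_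
    · calc ∑ m ∈ T.filter (fun m => m ≤ N), (2 : ℝ) ^ (-(r * m)) * ef a κ C η β N m
          ≤ ∑ m ∈ T.filter (fun m => m ≤ N), C * A *
            ((((N - m : ℕ) : ℝ) + 1) ^ (0 : ℝ) *
              (2 : ℝ) ^ (-((β - r) * ((N - m : ℕ) : ℝ)))) :=
            Finset.sum_le_sum fun m hm =>
              ef_low r a κ C η β N m hC ha (Finset.mem_filter.1 hm).2
        _ = C * A * ∑ m ∈ T.filter (fun m => m ≤ N),
            ((((N - m : ℕ) : ℝ) + 1) ^ (0 : ℝ) *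
              (2 : ℝ) ^ (-((β - r) * ((N - m : ℕ) : ℝ)))) := by rw [Finset.mul_sum]
        _ ≤ C * A * (M₁ * (2 : ℝ) ^ (-((β - r) / 2 * J))) := by
            refine mul_le_mul_of_nonneg_left (t₁ N J _ ?_) (by positivity)
            intro m hm
            obtain ⟨h1, h2⟩ := Finset.mem_filter.1 hm
            exact (hTm m h1).2.2.1 h2
        _ = (C * M₁ * (2 : ℝ) ^ (-((β - r) / 2 * J))) * A := by ring
        _ ≤ δ / 4 * A := mul_le_mul_of_nonneg_right (cancel _ _ (by positivity) g₁) hA0.le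
    · calc ∑ m ∈ T.filter (fun m => ¬ m ≤ N), (2 : ℝ) ^ (-(r * m)) * ef a κ C η β N m
          ≤ ∑ m ∈ T.filter (fun m => ¬ m ≤ N), C * (2 : ℝ) ^ κ * A *
            ((((m - N : ℕ) : ℝ) + 1) ^ a *
              (2 : ℝ) ^ (-((r - κ * (1 + η)) * ((m - N : ℕ) : ℝ)))) :=
            Finset.sum_le_sum fun m hm =>
              ef_high r a κ C η β N m hC ha hκ hη0 (Finset.mem_filter.1 hm).2
        _ = C * (2 : ℝ) ^ κ * A * ∑ m ∈ T.filter (fun m => ¬ m ≤ N),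
            ((((m - N : ℕ) : ℝ) + 1) ^ a *
              (2 : ℝ) ^ (-((r - κ * (1 + η)) * ((m - N : ℕ) : ℝ)))) := by rw [Finset.mul_sum]
        _ ≤ C * (2 : ℝ) ^ κ * A * (M₂ * (2 : ℝ) ^ (-((r - κ * (1 + η)) / 2 * J))) := by
            refine mul_le_mul_of_nonneg_left (t₂ N J _ ?_) (by positivity)
            intro m hm
            obtain ⟨h1, h2⟩ := Finset.mem_filter.1 hm
            exact (hTm m h1).2.2.2 h2
        _ = (C * (2 : ℝ) ^ κ * M₂ * (2 : ℝ) ^ (-((r - κ * (1 + η)) / 2 * J))) * A := by ring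
        _ ≤ δ / 4 * A := mul_le_mul_of_nonneg_right (cancel _ _ (by positivity) g₂) hA0.le
  -- the exponent
  have hexp : ∑ m ∈ T, kf e C η β N m ≤ δ / 4 * B + δ / 4 * B + T.card := by
    rw [← Finset.sum_filter_add_sum_filter_not T (fun m => m ≤ N)]
    have c1 : (T.card : ℝ) = ((T.filter (fun m => m ≤ N)).card : ℝ) +
        ((T.filter (fun m => ¬ m ≤ N)).card : ℝ) := by
      rw [← Nat.cast_add, Finset.card_filter_add_card_filter_not]
    have e1 : ∑ m ∈ T.filter (fun m => m ≤ N), kf e C η β N m ≤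
        δ / 4 * B + ((T.filter (fun m => m ≤ N)).card : ℝ) := by
      calc ∑ m ∈ T.filter (fun m => m ≤ N), kf e C η β N m
          ≤ ∑ m ∈ T.filter (fun m => m ≤ N), (C * (1 + β) * B *
            ((((N - m : ℕ) : ℝ) + 1) ^ (1 : ℝ) *
              (2 : ℝ) ^ (-(1 * ((N - m : ℕ) : ℝ)))) + 1) :=
            Finset.sum_le_sum fun m hm =>
              kf_low e C η β N m hC (Finset.mem_filter.1 hm).2
        _ = C * (1 + β) * B * (∑ m ∈ T.filter (fun m => m ≤ N),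
            ((((N - m : ℕ) : ℝ) + 1) ^ (1 : ℝ) *
              (2 : ℝ) ^ (-(1 * ((N - m : ℕ) : ℝ))))) + ((T.filter (fun m => m ≤ N)).card : ℝ) := by
            rw [Finset.mul_sum, Finset.sum_add_distrib, Finset.sum_const, nsmul_eq_mul, mul_one]
        _ ≤ C * (1 + β) * B * (M₃ * (2 : ℝ) ^ (-(1 / 2 * (J : ℝ)))) +
            ((T.filter (fun m => m ≤ N)).card : ℝ) := by
            refine add_le_add (mul_le_mul_of_nonneg_left (t₃ N J _ ?_) (by positivity)) le_rfl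
            intro m hm
            obtain ⟨h1, h2⟩ := Finset.mem_filter.1 hm
            exact (hTm m h1).2.2.1 h2
        _ = (C * (1 + β) * M₃ * (2 : ℝ) ^ (-(1 / 2 * (J : ℝ)))) * B +
            ((T.filter (fun m => m ≤ N)).card : ℝ) := by ring
        _ ≤ δ / 4 * B + ((T.filter (fun m => m ≤ N)).card : ℝ) :=
            add_le_add (mul_le_mul_of_nonneg_right (cancel _ _ (by positivity) g₃) hB0.le) le_rfl
    have e2 : ∑ m ∈ T.filter (fun m => ¬ m ≤ N), kf e C η β N m ≤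
        δ / 4 * B + ((T.filter (fun m => ¬ m ≤ N)).card : ℝ) := by
      calc ∑ m ∈ T.filter (fun m => ¬ m ≤ N), kf e C η β N m
          ≤ ∑ m ∈ T.filter (fun m => ¬ m ≤ N), (C * (2 + η) * B *
            ((((m - N : ℕ) : ℝ) + 1) ^ ((e : ℝ) + 1) *
              (2 : ℝ) ^ (-(η * ((m - N : ℕ) : ℝ)))) + 1) :=
            Finset.sum_le_sum fun m hm =>
              kf_high e C η β N m hC hη0 (Finset.mem_filter.1 hm).2
        _ = C * (2 + η) * B * (∑ m ∈ T.filter (fun m => ¬ m ≤ N),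
            ((((m - N : ℕ) : ℝ) + 1) ^ ((e : ℝ) + 1) *
              (2 : ℝ) ^ (-(η * ((m - N : ℕ) : ℝ))))) +
              ((T.filter (fun m => ¬ m ≤ N)).card : ℝ) := by
            rw [Finset.mul_sum, Finset.sum_add_distrib, Finset.sum_const, nsmul_eq_mul, mul_one]
        _ ≤ C * (2 + η) * B * (M₄ * (2 : ℝ) ^ (-(η / 2 * (J : ℝ)))) +
            ((T.filter (fun m => ¬ m ≤ N)).card : ℝ) := by
            refine add_le_add (mul_le_mul_of_nonneg_left (t₄ N J _ ?_) (by positivity)) le_rfl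
            intro m hm
            obtain ⟨h1, h2⟩ := Finset.mem_filter.1 hm
            exact (hTm m h1).2.2.2 h2
        _ = (C * (2 + η) * M₄ * (2 : ℝ) ^ (-(η / 2 * (J : ℝ)))) * B +
            ((T.filter (fun m => ¬ m ≤ N)).card : ℝ) := by ring
        _ ≤ δ / 4 * B + ((T.filter (fun m => ¬ m ≤ N)).card : ℝ) :=
            add_le_add (mul_le_mul_of_nonneg_right (cancel _ _ (by positivity) g₄) hB0.le) le_rfl
    linarith
  -- the remainder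
  have hrem : C * ((L : ℝ) + 1) ^ b * (2 : ℝ) ^ (-((r - κ) * L)) ≤ δ / 4 * A := by
    have h2 := s₅ L
    have h3 : (2 : ℝ) ^ ((r - κ) / 2 * (L : ℝ)) * (2 : ℝ) ^ (-((r - κ) * (L : ℝ))) ≤
        (2 : ℝ) ^ (-(r * N)) * (2 : ℝ) ^ (-(1 * (N : ℝ))) := by
      rw [← Real.rpow_add (by norm_num), ← Real.rpow_add (by norm_num)]
      refine Real.rpow_le_rpow_of_exponent_le (by norm_num) ?_
      rw [div_le_iff₀ hrκ] at hlam'
      rw [hL]
      push_cast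
      have := mul_le_mul_of_nonneg_right hlam' hN0
      nlinarith
    have h5 : (1 : ℝ) ≤ ((N : ℝ) + 1) ^ a := Real.one_le_rpow (by linarith) ha
    calc C * ((L : ℝ) + 1) ^ b * (2 : ℝ) ^ (-((r - κ) * L))
        ≤ C * (M₅ * (2 : ℝ) ^ ((r - κ) / 2 * (L : ℝ))) * (2 : ℝ) ^ (-((r - κ) * L)) := by gcongr
      _ = C * M₅ * ((2 : ℝ) ^ ((r - κ) / 2 * (L : ℝ)) * (2 : ℝ) ^ (-((r - κ) * L))) := by ring
      _ ≤ C * M₅ * ((2 : ℝ) ^ (-(r * N)) * (2 : ℝ) ^ (-(1 * (N : ℝ)))) :=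
          mul_le_mul_of_nonneg_left h3 (by positivity)
      _ = (C * M₅ * (2 : ℝ) ^ (-(1 * (N : ℝ)))) * (2 : ℝ) ^ (-(r * N)) := by ring
      _ ≤ δ / 4 * (2 : ℝ) ^ (-(r * N)) :=
          mul_le_mul_of_nonneg_right (cancel _ _ (by positivity) k₂) (by positivity)
      _ ≤ δ / 4 * A := by
          refine mul_le_mul_of_nonneg_left ?_ (by positivity)
          exact le_mul_of_one_le_left (by positivity) h5
  refine ⟨t, ?_, ht2, ?_⟩
  · refine ht1.trans (Real.exp_le_exp.mpr (hexp.trans ?_))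
    have h1 : (1 : ℝ) ≤ ((N : ℝ) + 1) ^ e := one_le_pow₀ (by linarith)
    have h2 : δ / 4 * 2 ^ N ≤ δ / 4 * B := by
      refine mul_le_mul_of_nonneg_left ?_ (by positivity)
      exact le_mul_of_one_le_left (by positivity) h1
    have h3 : δ * ((N : ℝ) + 1) ^ e * 2 ^ N = δ * B := by rw [hB]; ring
    rw [h3]
    have h4 : 0 < δ * B := by positivity
    linarith
  · rintro f ⟨g, hg1, hg2⟩
    obtain ⟨y, hy, hyx⟩ := ht3 g hg1
    refine ⟨y, hy, ?_⟩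
    filter_upwards [hg2 L hLN] with x hx
    have h1 := norm_add_le (f x - ∑ m ∈ T, (((2 : ℝ) ^ (-(r * m)) : ℝ) : ℂ) * g m x)
      (∑ m ∈ T, (((2 : ℝ) ^ (-(r * m)) : ℝ) : ℂ) * g m x - y x)
    rw [sub_add_sub_cancel] at h1
    refine h1.trans ?_
    have h2 := hyx x
    have h3 : δ * ((N : ℝ) + 1) ^ a * (2 : ℝ) ^ (-(r * (N : ℝ))) = δ * A := by rw [hA]; ring
    rw [h3]
    have h4 : 0 < δ * A := by positivity
    linarith

end Pool.Agent.Helper52.SB
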